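import Pool.Agent.W495.FM.HomDefs

/-!
# Étale motivic cohomology of arithmetic schemes: definitions
-/

set_option autoImplicit false

namespace Pool.Agent.P8H27.EM

open Pool.Agent.W495.FM

/-- Data of the étale motivic (Borel–Moore) homology of the arithmetic schemes `X : W`: the groups
`H X n j = H_n(X_et, ℤ(j))`, `j ≤ 0`. If `X` is regular of dimension `d` then this is
`H^(2 d - n)(X_et, ℤ(d - j))`. -/
structure EtaleHomology (W : Type) where
  H : W → ℤ → ℤ → Type
  [grp : ∀ X n j, AddCommGroup (H X n j)]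

attribute [instance] EtaleHomology.grp

variable {W : Type}

/-- The groups `H_n(X_et, ℤ(j))`, `j ≤ 0`, `n ≥ 2 j`, are finitely generated. If `X` is regular of
dimension `d` these are the groups `H^i(X_et, ℤ(r))`, `r ≥ d`, `i ≤ 2 r`. -/
def HasFG (E : EtaleHomology W) (X : W) : Prop :=
  ∀ n j : ℤ, j ≤ 0 → 2 * j ≤ n → AddGroup.FG (E.H X n j)

/-- The motive of `X` is a direct summand of the sum of the motives of `Y l` twisted `r l ≤ 0` times:
the groups of `X` are direct summands of the sums of the groups of `Y l` in the degrees `n + 2 r l` with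
the twists `j + r l`. For instance `X` is a projective bundle over `Y`, or the blow-up of `Y l` in a
regular subscheme `Y l'`. -/
def IsSummand (E : EtaleHomology W) {I : Type} [Fintype I] (X : W) (Y : I → W) (r : I → ℤ) : Prop :=
  (∀ l, r l ≤ 0) ∧ ∀ n j : ℤ, j ≤ 0 →
    ∃ (s : ∀ l, E.H X n j →+ E.H (Y l) (n + 2 * r l) (j + r l))
      (t : ∀ l, E.H (Y l) (n + 2 * r l) (j + r l) →+ E.H X n j), ∀ x, ∑ l, t l (s l x) = x

/-- `Z` is a closed subscheme of `X` with complement `U`: a part of the localisation sequences. -/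
def IsOpenClosed (E : EtaleHomology W) (Z X U : W) : Prop :=
  ∀ n j : ℤ, j ≤ 0 → ∃ (a : E.H Z n j →+ E.H X n j) (b : E.H X n j →+ E.H U n j),
    Function.Exact a b

/-- The smallest class of arithmetic schemes that contains those with the property `S`, the schemes
whose motives are direct summands of finite sums of twists of motives of members, and the schemes that
are the disjoint union of a closed and an open member. -/
inductive ArithGenerated (E : EtaleHomology W) (S : W → Prop) : W → Prop
  | base (X : W) (h : S X) : ArithGenerated E S X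
  | summand {I : Type} [Fintype I] (X : W) (Y : I → W) (r : I → ℤ) (h : IsSummand E X Y r)
      (hY : ∀ l, ArithGenerated E S (Y l)) : ArithGenerated E S X
  | total (Z X U : W) (h : IsOpenClosed E Z X U) (hZ : ArithGenerated E S Z)
      (hU : ArithGenerated E S U) : ArithGenerated E S X

variable {Ω V : Type} [Field Ω]

/-- The arithmetic scheme `X` is a smooth projective connected variety over a finite field, with the
motivic and the `ℓ`-adic homology groups of `X' : V`. There are groups
`A n j = H_n(X_et, (ℚ / ℤ)(j))`, `j ≤ 0`, that is `H^(2 d - n)(X_et, (ℚ / ℤ)(d - j))`, where `d` is the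
dimension of `X`. -/
structure IsOverFinite (T : Homology Ω V) (E : EtaleHomology W) (X : W) (X' : V)
    (A : ℤ → ℤ → Type) [∀ n j, AddCommGroup (A n j)] : Prop where
  /-- the long exact sequence of `0 → ℤ(j) → ℚ(j) → (ℚ / ℤ)(j) → 0` -/
  exact : ∀ n j : ℤ, j ≤ 0 → ∃ (δ : A (n + 1) j →+ E.H X n j) (ρ : E.H X n j →+ T.M X' n j),
    Function.Exact δ ρ ∧ ((n = 0 ∧ j = 0) → ∃ deg : T.M X' n j →+ ℚ,
      (∃ x, deg x ≠ 0) ∧ ∀ x, ∃ k : ℤ, deg (ρ x) = k)
  /-- the groups `H^i(X_et, (ℚ / ℤ)(r))` are finite for `r ≥ d`, `i < 2 r` (Colliot-Thélène, Sansuc,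
  Soulé, Gabber, Milne, Gros, Suwa) -/
  finite : ∀ n j : ℤ, j ≤ 0 → 2 * j < n → Finite (A n j)
  /-- weights (Deligne): there are no Frobenius invariants in `H_n(X, ℚ_ℓ(j))`, `j ≤ 0`, unless
  `n = j = 0` -/
  weights : ∀ n j : ℤ, j ≤ 0 → n ≠ 0 ∨ j ≠ 0 → ∀ e : T.E X' n j, T.frob X' n j e = e → e = 0
  /-- the space of the Frobenius invariants in `H_0(X, ℚ_ℓ)` has dimension at most one -/
  connected : ∀ e e' : T.E X' 0 0, T.frob X' 0 0 e = e → T.frob X' 0 0 e' = e' →
    ∃ a b : Ω, (a ≠ 0 ∨ b ≠ 0) ∧ a • e + b • e' = 0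

end Pool.Agent.P8H27.EM
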