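import Pool.Agent.P8H27.EM.Defs
import Pool.Agent.P8H27.RF.RedT

/-!
# Arithmetic schemes generated by abelian varieties over finite fields: definitions
-/

set_option autoImplicit false

namespace Pool.Agent.P8H27.EM

open NumberField Pool.Agent.W495.TA Pool.Agent.W495.FM Pool.Agent.P8H27.RF

variable {Ω V W : Type} [Field Ω] [CharZero Ω]

/-- `X` has the homology groups of an abelian variety `Y` over a finite field such that, for a totally
real number field `L`, Galois over `ℚ`, with at most two prime ideals above the characteristic, the traces
of a power of the Frobenius of `Y` lie in `L`, up to supersingular factors, and the slopes are as in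
`HasTracesIn`. -/
def IsKnownAbelian (T : Homology Ω V) (X : V) : Prop :=
  ∃ (p : ℕ) (_ : Fact p.Prime) (ν : PadicAlgCl p ≃+* ℂ) (L : Type) (_ : Field L) (_ : NumberField L),
    IsTotallyReal L ∧ IsGalois ℚ L ∧ numPrimes p L ≤ 2 ∧
    ∃ (Y : RedAV p ν) (C : Cycles Ω Y) (M : Motivic C) (g : ℕ), HasTracesIn L Y ∧ IsChow C ∧
      IsMotivic M ∧ IsAbelian T X M g

/-- The arithmetic scheme `X` is a smooth projective connected variety over a finite field and it
belongs to the class generated by the abelian varieties of `IsKnownAbelian`. -/
def IsGeneratedOverFinite (T : Homology Ω V) (E : EtaleHomology W) (X : W) : Prop :=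
  ∃ (X' : V) (A : ℤ → ℤ → Type) (_ : ∀ n j, AddCommGroup (A n j)),
    IsOverFinite T E X X' A ∧ Generated T (IsKnownAbelian T) X'

end Pool.Agent.P8H27.EM
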