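import Pool.Agent.P8H27.EM.Main
import Pool.Agent.P8H27.EM.Known
import Pool.Agent.P8H27.RF.TB

/-!
# Finite generation of étale motivic cohomology: arithmetic schemes generated by abelian varieties
over finite fields
-/

set_option autoImplicit false

namespace Pool.Agent.P8H27.EM

open NumberField Pool.Agent.W495.TA Pool.Agent.W495.FM Pool.Agent.P8H27.RF

noncomputable section

variable {Ω V W : Type} [Field Ω] [CharZero Ω]

variable [IsAlgClosed Ω] {T : Homology Ω V} {E : EtaleHomology W}

theorem tb_known (hT : IsHomology T) {X : V} (hX : Generated T (IsKnownAbelian T) X) : TB T X := by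
  refine tb_generated hT (fun X hX => ?_) hX
  obtain ⟨p, _, ν, L, _, _, h1, h2, h3, h⟩ := hX
  exact tb_traces h3 hT (Generated.base X h)

theorem hasFG_known (hT : IsHomology T) {X : W}
    (hX : ArithGenerated E (fun Y => HasFG E Y ∨ IsGeneratedOverFinite T E Y) X) : HasFG E X := by
  refine hasFG_of_generated (fun Y hY => ?_) hX
  rcases hY with h | ⟨X', A, _, h1, h2⟩
  · exact h
  · exact hasFG_of_tb hT h1 (tb_known hT h2)

end

end Pool.Agent.P8H27.EM
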