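import Pool.Agent.P8H27.EM.Defs

/-!
# Finite generation of étale motivic cohomology
-/

set_option autoImplicit false
set_option linter.unusedSectionVars false

namespace Pool.Agent.P8H27.EM

open Pool.Agent.W495.FM

section fg

variable {A B C : Type} [AddCommGroup A] [AddCommGroup B] [AddCommGroup C]

/-- A group in the middle of an exact sequence. -/
theorem fg_of_exact (a : A →+ B) (b : B →+ C) (h : Function.Exact a b) (hA : AddGroup.FG A)
    (hC : AddGroup.FG C) : AddGroup.FG B := by
  rw [← Module.Finite.iff_addGroup_fg] at hA hC ⊢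
  have hN : IsNoetherian ℤ C := isNoetherian_of_isNoetherianRing_of_finite ℤ C
  refine ⟨Submodule.fg_of_fg_map_of_fg_inf_ker (b.toIntLinearMap) (IsNoetherian.noetherian _) ?_⟩
  have h1 : (⊤ : Submodule ℤ B) ⊓ LinearMap.ker b.toIntLinearMap =
      LinearMap.range a.toIntLinearMap := by
    ext x
    rw [top_inf_eq, LinearMap.mem_ker, LinearMap.mem_range]
    exact h x
  rw [h1, LinearMap.range_eq_map]
  exact (Module.Finite.fg_top (R := ℤ) (M := A)).map _

/-- A subgroup of the integers. -/
theorem fg_of_int (f : B →+ ℚ) (hf : ∀ x, ∃ k : ℤ, f x = k) (hker : (f.ker : Set B).Finite) :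
    AddGroup.FG B := by
  rw [← Module.Finite.iff_addGroup_fg]
  refine ⟨Submodule.fg_of_fg_map_of_fg_inf_ker (f.toIntLinearMap) ?_ ?_⟩
  · let ι : ℤ →ₗ[ℤ] ℚ := (Int.castAddHom ℚ).toIntLinearMap
    have h1 : (⊤ : Submodule ℤ B).map f.toIntLinearMap ≤ LinearMap.range ι := by
      rintro _ ⟨x, -, rfl⟩
      obtain ⟨k, hk⟩ := hf x
      exact ⟨k, hk.symm⟩
    have h2 : Module.Finite ℤ (LinearMap.range ι) := inferInstance
    have h3 : IsNoetherian ℤ (LinearMap.range ι) := isNoetherian_of_isNoetherianRing_of_finite ℤ _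
    have h4 := IsNoetherian.noetherian (R := ℤ)
      (((⊤ : Submodule ℤ B).map f.toIntLinearMap).comap (LinearMap.range ι).subtype)
    have h5 := h4.map (LinearMap.range ι).subtype
    rwa [Submodule.map_comap_subtype, inf_eq_right.2 h1] at h5
  · rw [top_inf_eq]
    have h1 : Finite (LinearMap.ker f.toIntLinearMap) := hker.to_subtype
    exact (Submodule.fg_top _).1 (Module.Finite.fg_top (R := ℤ)
      (M := LinearMap.ker f.toIntLinearMap))

end fg

variable {Ω V W : Type} [Field Ω] {T : Homology Ω V} {E : EtaleHomology W}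

theorem reg_ne (hT : IsHomology T) {X' : V} (hTB : TB T X') {n j : ℤ} {x : T.M X' n j}
    (hx : x ≠ 0) : T.reg X' n j x ≠ 0 := by
  have h1 : LinearIndependent ℚ (fun _ : Fin 1 => x) :=
    linearIndependent_unique_iff.2 hx
  have h2 := (hTB n j).2.1 1 (fun _ => x) h1
  exact linearIndependent_unique_iff.1 h2

/-- **Smooth projective varieties over finite fields.** -/
theorem hasFG_of_tb (hT : IsHomology T) {X : W} {X' : V} {A : ℤ → ℤ → Type}
    [∀ n j, AddCommGroup (A n j)] (h : IsOverFinite T E X X' A) (hTB : TB T X') : HasFG E X := by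
  intro n j hj hn
  obtain ⟨δ, ρ, hex, hdeg⟩ := h.exact n j hj
  have hfin : Finite (A (n + 1) j) := h.finite (n + 1) j hj (by omega)
  have hrange : (Set.range δ).Finite := Set.finite_range δ
  by_cases h0 : n = 0 ∧ j = 0
  · obtain ⟨deg, ⟨x₀, hx₀⟩, hint⟩ := hdeg h0
    obtain ⟨rfl, rfl⟩ := h0
    have hinj : ∀ x : T.M X' 0 0, deg x = 0 → x = 0 := by
      intro x hx
      by_contra hne
      have h1 : LinearIndependent ℚ ![x, x₀] := by
        rw [LinearIndependent.pair_iff]
        intro s t hst
        have h2 : ∀ (c : ℚ) (y : T.M X' 0 0), deg (c • y) = c * deg y := fun c y => by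
          rw [map_rat_smul deg c y, smul_eq_mul]
        have h3 := congrArg deg hst
        rw [map_add, h2, h2, hx, mul_zero, zero_add, map_zero] at h3
        have ht : t = 0 := (mul_eq_zero.1 h3).resolve_right hx₀
        rw [ht, zero_smul, add_zero] at hst
        exact ⟨(smul_eq_zero.1 hst).resolve_right hne, ht⟩
      have h2 := (hTB 0 0).2.1 2 ![x, x₀] h1
      obtain ⟨a, b, hab, h3⟩ := h.connected (T.reg X' 0 0 x) (T.reg X' 0 0 x₀)
        (hT.frob_reg _ _ _ _) (hT.frob_reg _ _ _ _)
      have h4 : (fun k => T.reg X' 0 0 (![x, x₀] k)) = ![T.reg X' 0 0 x, T.reg X' 0 0 x₀] := by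
        ext k
        fin_cases k <;> rfl
      rw [h4, LinearIndependent.pair_iff] at h2
      obtain ⟨ha, hb⟩ := h2 a b h3
      rcases hab with h5 | h5
      · exact h5 ha
      · exact h5 hb
    refine fg_of_int (deg.comp ρ) (fun x => hint x) (hrange.subset ?_)
    intro x hx
    have h1 : deg (ρ x) = 0 := hx
    exact (hex x).1 (hinj _ h1)
  · have h1 : ∀ x : T.M X' n j, x = 0 := by
      intro x
      by_contra hne
      refine reg_ne hT hTB hne (h.weights n j hj ?_ _ (hT.frob_reg _ _ _ _))
      by_contra hcon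
      push Not at hcon
      exact h0 hcon
    have h2 : Function.Surjective δ := fun x => (hex x).1 (h1 _)
    have h3 : Finite (E.H X n j) := Finite.of_surjective δ h2
    rw [← Module.Finite.iff_addGroup_fg]
    infer_instance

/-- **Closure.** -/
theorem hasFG_of_generated {S : W → Prop} (hS : ∀ X, S X → HasFG E X) {X : W}
    (hX : ArithGenerated E S X) : HasFG E X := by
  induction hX with
  | base X h => exact hS X h
  | @summand I _ X Y r h hY ih =>
    intro n j hj hn
    obtain ⟨s, t, hst⟩ := h.2 n j hj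
    have h1 : ∀ l, Module.Finite ℤ (E.H (Y l) (n + 2 * r l) (j + r l)) := fun l => by
      rw [Module.Finite.iff_addGroup_fg]
      have := h.1 l
      exact ih l _ _ (by omega) (by omega)
    rw [← Module.Finite.iff_addGroup_fg]
    let φ : (∀ l, E.H (Y l) (n + 2 * r l) (j + r l)) →ₗ[ℤ] E.H X n j :=
      ∑ l, (t l).toIntLinearMap ∘ₗ LinearMap.proj l
    refine Module.Finite.of_surjective φ fun x => ⟨fun l => s l x, ?_⟩
    rw [LinearMap.sum_apply]
    exact hst x
  | total Z X U h _ _ ihZ ihU =>
    intro n j hj hn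
    obtain ⟨a, b, hab⟩ := h n j hj
    exact fg_of_exact a b hab (ihZ n j hj hn) (ihU n j hj hn)

end Pool.Agent.P8H27.EM
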